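import Mathlib

/-!
# Dyadic `U^α` means are not bounded on the endpoint martingale Hardy space

For every `0 < α < 1` and `p = 1 / (1 + α)` the operators `U^α_{2^n} : H_p → L_p` are not
uniformly bounded; their norms grow at least like `n ^ (1 + α)`.
-/

open MeasureTheory Filter Set
open scoped ENNReal BigOperators

namespace Pool.Agent.H56.Dyadic

/-- The dyadic group `G = ∏_{k ≥ 0} ℤ/2`. -/
abbrev G : Type := ℕ → ZMod 2

/-- The probability measure on `ℤ/2` giving each point mass `1/2`. -/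
noncomputable def coin : Measure (ZMod 2) := (1 / 2 : ℝ≥0∞) • Measure.count

/-- The product probability measure on `G`. -/
noncomputable def μ : Measure G := Measure.infinitePi (fun _ : ℕ => coin)

/-- The dyadic interval `I_n(x)`. -/
def dyadicInterval (n : ℕ) (x : G) : Set G := {y | ∀ j < n, y j = x j}

/-- The dyadic filtration: `F_n` is generated by the sets `I_n(x)`, `x ∈ G`. -/
def ℱ : Filtration ℕ (inferInstance : MeasurableSpace G) where
  seq n := MeasurableSpace.generateFrom {s | ∃ x : G, s = dyadicInterval n x}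
  mono' := by
    intro m n hmn
    refine MeasurableSpace.generateFrom_le ?_
    rintro _ ⟨x, rfl⟩
    -- `I_m(x)` is the finite union of the `I_n(y)` it contains
    have hfin : (Set.range fun y : Fin n → ZMod 2 =>
        dyadicInterval n (fun j => if h : j < n then y ⟨j, h⟩ else 0)).Finite :=
      Set.finite_range _
    have : dyadicInterval m x = ⋃₀ {s | (∃ y : Fin n → ZMod 2,
        dyadicInterval n (fun j => if h : j < n then y ⟨j, h⟩ else 0) = s) ∧
          s ⊆ dyadicInterval m x} := by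
      ext z
      constructor
      · intro hz
        refine ⟨dyadicInterval n z, ⟨⟨fun i => z i, ?_⟩, ?_⟩, ?_⟩
        · ext w
          simp only [dyadicInterval, Set.mem_ofPred_eq]
          constructor
          · intro h j hj
            have := h j hj
            simpa [hj] using this
          · intro h j hj
            simp [hj, h j hj]
        · intro w hw j hj
          rw [hw j (lt_of_lt_of_le hj hmn)]
          exact hz j hj
        · intro j _
          rfl
      · rintro ⟨s, ⟨_, hs⟩, hz⟩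
        exact hs hz
    rw [this]
    refine MeasurableSet.sUnion ?_ ?_
    · exact (hfin.subset (by rintro s ⟨⟨y, hy⟩, _⟩; exact ⟨y, hy⟩)).countable
    · rintro s ⟨⟨y, rfl⟩, _⟩
      exact MeasurableSpace.measurableSet_generateFrom ⟨_, rfl⟩
  le' := by
    intro n
    refine MeasurableSpace.generateFrom_le ?_
    rintro _ ⟨x, rfl⟩
    have : dyadicInterval n x = ⋂ j ∈ Finset.range n, (fun y : G => y j) ⁻¹' {x j} := by
      ext y
      simp [dyadicInterval]
    rw [this]
    refine Finset.measurableSet_biInter _ fun j _ => ?_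
    exact (measurable_pi_apply j) (measurableSet_singleton _)

/-- The Rademacher function `r_k(x) = (-1)^{x_k}`. -/
noncomputable def rademacher (k : ℕ) (x : G) : ℝ := (-1) ^ (x k).val

/-- The Walsh function `w_n = ∏_k r_k^{n_k}`, where `n_k = n / 2^k % 2` is the `k`-th binary
digit of `n`. -/
noncomputable def walsh (n : ℕ) (x : G) : ℝ := ∏ᶠ k : ℕ, rademacher k x ^ (n / 2 ^ k % 2)

/-- `‖g‖_p = (∫ |g|^p)^{1/p}`. -/
noncomputable def lpNorm (p : ℝ) (g : G → ℝ) : ℝ≥0∞ := (∫⁻ x, ‖g x‖ₑ ^ p ∂μ) ^ (1 / p)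

/-- The Hardy norm `‖f‖_{H_p} = ‖sup_n |f^{(n)}|‖_p` of a sequence of functions. -/
noncomputable def hardyNorm (p : ℝ) (f : ℕ → G → ℝ) : ℝ≥0∞ :=
  (∫⁻ x, (⨆ n, ‖f n x‖ₑ) ^ p ∂μ) ^ (1 / p)

/-- Walsh-Fourier coefficients of a martingale, `lim_k ∫ f^{(k)} w_i`. -/
noncomputable def fourier (f : ℕ → G → ℝ) (i : ℕ) : ℝ :=
  limUnder atTop fun k : ℕ => ∫ x, f k x * walsh i x ∂μ

/-- Partial sums `S_k f`. -/
noncomputable def partialSum (k : ℕ) (f : ℕ → G → ℝ) (x : G) : ℝ :=
  ∑ j ∈ Finset.range k, fourier f j * walsh j x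

/-- `Q_n = ∑_{k=1}^n k^{α-1}`. -/
noncomputable def Q (α : ℝ) (n : ℕ) : ℝ := ∑ k ∈ Finset.Icc 1 n, (k : ℝ) ^ (α - 1)

/-- The means `U^α_n f = Q_n⁻¹ ∑_{k=1}^n (n+1-k)^{α-1} S_k f`. -/
noncomputable def U (α : ℝ) (n : ℕ) (f : ℕ → G → ℝ) (x : G) : ℝ :=
  (Q α n)⁻¹ * ∑ k ∈ Finset.Icc 1 n, ((n + 1 - k : ℕ) : ℝ) ^ (α - 1) * partialSum k f x

/-- The norm of `U^α_{2^n} : H_p → L_p` for the endpoint exponent `p = 1/(1+α)`: the supremum of
`‖U^α_{2^n} f‖_p` over the martingales `f` with `‖f‖_{H_p} ≤ 1`. -/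
noncomputable def dyadicNorm (α : ℝ) (n : ℕ) : ℝ≥0∞ :=
  ⨆ (f : ℕ → G → ℝ) (_ : Martingale f ℱ μ) (_ : hardyNorm (1 / (1 + α)) f ≤ 1),
    lpNorm (1 / (1 + α)) (U α (2 ^ n) f)

end Pool.Agent.H56.Dyadic
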