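import Pool.Agent.H56.DyadicDefs

/-! Proofs for the unboundedness of the dyadic `U^α` means on `H_{1/(1+α)}`. -/

open MeasureTheory Filter Set
open scoped ENNReal BigOperators

namespace Pool.Agent.H56.Dyadic

/-! ### Basic facts on the measure -/

instance : IsProbabilityMeasure coin := by
  constructor
  have h : Measure.count (Set.univ : Set (ZMod 2)) = 2 := by
    rw [Measure.count_univ]
    simp [ENat.card_eq_coe_fintype_card, ZMod.card]
  rw [coin, Measure.smul_apply, h, smul_eq_mul]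
  exact ENNReal.div_mul_cancel (by simp) (by simp) 

instance : IsProbabilityMeasure μ := by
  unfold μ; infer_instance

lemma coin_singleton (a : ZMod 2) : coin {a} = 1 / 2 := by
  rw [coin, Measure.smul_apply, Measure.count_singleton, smul_eq_mul, mul_one]

lemma measure_cyl (n : ℕ) (x : G) : μ (dyadicInterval n x) = (1 / 2) ^ n := by
  have : dyadicInterval n x = Set.pi (Finset.range n : Set ℕ) (fun j => {x j}) := by
    ext y
    simp [dyadicInterval, Set.mem_pi]
  rw [this, μ, Measure.infinitePi_pi _ (fun i _ => measurableSet_singleton _)]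
  simp [coin_singleton]

lemma measurableSet_dyadic (n : ℕ) (x : G) : MeasurableSet (dyadicInterval n x) :=
  ℱ.le n _ (MeasurableSpace.measurableSet_generateFrom ⟨_, rfl⟩)

/-- Flip the `N`-th coordinate. -/
def flip (N : ℕ) (x : G) : G := fun i => if i = N then x i + 1 else x i

lemma coin_map_add : coin.map (fun a : ZMod 2 => a + 1) = coin := by
  ext s _
  have hm : Measurable (fun a : ZMod 2 => a + 1) := measurable_of_finite _
  rw [Measure.map_apply hm (Set.toFinite s).measurableSet, coin, Measure.smul_apply,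
    Measure.smul_apply]
  congr 1
  rw [Measure.count_apply (Set.toFinite _).measurableSet,
    Measure.count_apply (Set.toFinite _).measurableSet]
  congr 1
  exact ((Equiv.addRight (1 : ZMod 2)).symm.injective.encard_image s ▸ by
    congr 1
    ext a
    simp)

lemma measurePreserving_flip (N : ℕ) : MeasurePreserving (flip N) μ μ := by
  have h1 : Measurable (flip N) := by
    refine measurable_pi_lambda _ fun i => ?_
    unfold flip
    by_cases h : i = N
    · simp only [h, if_true]
      exact (measurable_of_finite (fun a : ZMod 2 => a + 1)).comp (measurable_pi_apply N)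
    · simp only [h, if_false]
      exact measurable_pi_apply i
  refine ⟨h1, ?_⟩
  have h2 : flip N = fun x i => (fun (i : ℕ) (a : ZMod 2) => if i = N then a + 1 else a) i (x i) := by
    ext x i
    simp [flip]
  rw [h2, μ, Measure.infinitePi_map_pi (μ := fun _ : ℕ => coin)
    (f := fun (i : ℕ) (a : ZMod 2) => if i = N then a + 1 else a)
    (fun i => measurable_of_finite _)]
  congr 1
  ext1 i
  by_cases h : i = N
  · simp [h, coin_map_add]
  · simp [h]

/-! ### Walsh functions -/

lemma rademacher_sq (k : ℕ) (x : G) : rademacher k x * rademacher k x = 1 := by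
  unfold rademacher
  rw [← pow_add, ← two_mul, pow_mul]; simp

lemma rademacher_zero {k : ℕ} {x : G} (h : x k = 0) : rademacher k x = 1 := by
  simp [rademacher, h]

lemma rademacher_one {k : ℕ} {x : G} (h : x k = 1) : rademacher k x = -1 := by
  have : (1 : ZMod 2).val = 1 := rfl
  simp [rademacher, h, this]

lemma rademacher_cases (k : ℕ) (x : G) : rademacher k x = 1 ∨ rademacher k x = -1 := by
  have h : ∀ a : ZMod 2, a = 0 ∨ a = 1 := by decide
  rcases h (x k) with h | h
  · exact Or.inl (rademacher_zero h)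
  · exact Or.inr (rademacher_one h)

lemma walsh_eq_prod {n N : ℕ} (h : n < 2 ^ N) (x : G) :
    walsh n x = ∏ k ∈ Finset.range N, rademacher k x ^ (n / 2 ^ k % 2) := by
  unfold walsh
  apply finprod_eq_prod_of_mulSupport_subset
  intro k hk
  rw [Function.mem_mulSupport] at hk
  simp only [Finset.coe_range, Set.mem_Iio]
  by_contra hcon
  push Not at hcon
  apply hk
  have : n / 2 ^ k = 0 := Nat.div_eq_of_lt (lt_of_lt_of_le h (Nat.pow_le_pow_right (by norm_num) hcon))
  simp [this]

lemma walsh_add {N j : ℕ} (h : j < 2 ^ N) (x : G) :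
    walsh (2 ^ N + j) x = rademacher N x * walsh j x := by
  have h1 : 2 ^ N + j < 2 ^ (N + 1) := by rw [pow_succ]; omega
  rw [walsh_eq_prod h1, walsh_eq_prod h, Finset.prod_range_succ, mul_comm]
  congr 1
  · have : (2 ^ N + j) / 2 ^ N = 1 := by
      rw [Nat.add_div_left _ (by positivity), Nat.div_eq_of_lt h]
    simp [this]
  · apply Finset.prod_congr rfl
    intro k hk
    rw [Finset.mem_range] at hk
    congr 1
    obtain ⟨m, rfl⟩ := Nat.exists_eq_add_of_lt hk
    have h2 : 2 ^ (k + m + 1) + j = j + 2 ^ k * (2 * 2 ^ m) := by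
      rw [pow_succ, pow_add]; ring
    rw [h2, Nat.add_mul_div_left _ _ (by positivity)]
    omega

lemma walsh_sum_reflect (z : ℝ) (N : ℕ) (x : G) :
    ∑ i ∈ Finset.range (2 ^ N), z ^ (2 ^ N - 1 - i) * walsh i x =
      ∏ k ∈ Finset.range N, (z ^ (2 ^ k) + rademacher k x) := by
  induction N with
  | zero => simp [walsh_eq_prod (n := 0) (N := 0) (by norm_num)]
  | succ N ih =>
    rw [Finset.prod_range_succ, ← ih, pow_succ, mul_two, Finset.sum_range_add, mul_add,
      Finset.sum_mul, Finset.sum_mul]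
    congr 1
    · apply Finset.sum_congr rfl
      intro i hi
      rw [Finset.mem_range] at hi
      have : 2 ^ N + 2 ^ N - 1 - i = (2 ^ N - 1 - i) + 2 ^ N := by omega
      rw [this, pow_add]; ring
    · apply Finset.sum_congr rfl
      intro i hi
      rw [Finset.mem_range] at hi
      have : 2 ^ N + 2 ^ N - 1 - (2 ^ N + i) = (2 ^ N - 1 - i) := by omega
      rw [this, walsh_add hi]; ring

lemma walsh_sum_one (N : ℕ) (x : G) :
    ∑ i ∈ Finset.range (2 ^ N), walsh i x = ∏ k ∈ Finset.range N, (1 + rademacher k x) := by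
  have := walsh_sum_reflect 1 N x
  simpa using this

lemma walsh_eq_one_of_mem {N j : ℕ} (h : j < 2 ^ N) {x : G} (hx : x ∈ dyadicInterval N 0) :
    walsh j x = 1 := by
  rw [walsh_eq_prod h]
  apply Finset.prod_eq_one
  intro k hk
  rw [rademacher_zero (hx k (Finset.mem_range.1 hk)), one_pow]

/-- Telescoping identity for the generating function of Dirichlet kernels. -/
lemma telescoping (z : ℝ) (w : ℕ → ℝ) (M : ℕ) :
    (1 - z) * ∑ l ∈ Finset.Icc 1 M, z ^ (M + 1 - l) * ∑ j ∈ Finset.range l, w j =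
      z * ∑ j ∈ Finset.range M, w j - z * ∑ j ∈ Finset.range M, z ^ (M - j) * w j := by
  induction M with
  | zero => simp
  | succ M ih =>
    rw [Finset.sum_Icc_succ_top (by omega)]
    have e1 : ∑ l ∈ Finset.Icc 1 M, z ^ (M + 1 + 1 - l) * ∑ j ∈ Finset.range l, w j =
        z * ∑ l ∈ Finset.Icc 1 M, z ^ (M + 1 - l) * ∑ j ∈ Finset.range l, w j := by
      rw [Finset.mul_sum]
      apply Finset.sum_congr rfl
      intro l hl
      rw [Finset.mem_Icc] at hl
      have : M + 1 + 1 - l = (M + 1 - l) + 1 := by omega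
      rw [this, pow_succ]; ring
    have e2 : ∑ j ∈ Finset.range M, z ^ (M + 1 - j) * w j =
        z * ∑ j ∈ Finset.range M, z ^ (M - j) * w j := by
      rw [Finset.mul_sum]
      apply Finset.sum_congr rfl
      intro l hl
      rw [Finset.mem_range] at hl
      have : M + 1 - l = (M - l) + 1 := by omega
      rw [this, pow_succ]; ring
    have e3 : M + 1 + 1 - (M + 1) = 1 := by omega
    have e4 : M + 1 - M = 1 := by omega
    rw [e1, Finset.sum_range_succ, Finset.sum_range_succ, e2, e3, e4, pow_one]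
    linear_combination z * ih

/-- The kernel sum `∑_{l=1}^{M} (M+1-l)^{α-1} D_l(x)` with `M = 2^N`. -/
noncomputable def kernelSum (α : ℝ) (N : ℕ) (x : G) : ℝ :=
  ∑ l ∈ Finset.Icc 1 (2 ^ N), ((2 ^ N + 1 - l : ℕ) : ℝ) ^ (α - 1) *
    ∑ j ∈ Finset.range l, walsh j x

lemma gen_identity (z : ℝ) (N : ℕ) (x : G) (hD : ∑ i ∈ Finset.range (2 ^ N), walsh i x = 0) :
    (1 - z) * (-(∏ k ∈ Finset.range N, rademacher k x) *
      ∑ l ∈ Finset.Icc 1 (2 ^ N), z ^ (2 ^ N + 1 - l) * ∑ j ∈ Finset.range l, walsh j x) =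
      z ^ 2 * ∏ k ∈ Finset.range N, (1 + rademacher k x * z ^ (2 ^ k)) := by
  have h1 := telescoping z (fun j => walsh j x) (2 ^ N)
  rw [hD] at h1
  have h2 : ∑ j ∈ Finset.range (2 ^ N), z ^ (2 ^ N - j) * walsh j x =
      z * ∑ i ∈ Finset.range (2 ^ N), z ^ (2 ^ N - 1 - i) * walsh i x := by
    rw [Finset.mul_sum]
    apply Finset.sum_congr rfl
    intro l hl
    rw [Finset.mem_range] at hl
    have : 2 ^ N - l = (2 ^ N - 1 - l) + 1 := by omega
    rw [this, pow_succ]; ring
  have h3 : ∏ k ∈ Finset.range N, (z ^ (2 ^ k) + rademacher k x) =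
      (∏ k ∈ Finset.range N, rademacher k x) *
        ∏ k ∈ Finset.range N, (1 + rademacher k x * z ^ (2 ^ k)) := by
    rw [← Finset.prod_mul_distrib]
    apply Finset.prod_congr rfl
    intro k _
    linear_combination (-(z ^ (2 ^ k))) * rademacher_sq k x
  have h4 : (∏ k ∈ Finset.range N, rademacher k x) * (∏ k ∈ Finset.range N, rademacher k x) = 1 := by
    rw [← Finset.prod_mul_distrib]
    exact Finset.prod_eq_one fun k _ => rademacher_sq k x
  rw [h2, walsh_sum_reflect, h3] at h1
  linear_combination (-(∏ k ∈ Finset.range N, rademacher k x)) * h1 +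
    (z ^ 2 * ∏ k ∈ Finset.range N, (1 + rademacher k x * z ^ (2 ^ k))) * h4

/-! ### Lower bound of the kernel -/

lemma gamma_integral {α : ℝ} (h1 : α < 1) {m : ℝ} (hm : 0 < m) :
    ∫ s in Set.Ioi (0 : ℝ), s ^ (-α) * Real.exp (-(m * s)) = m ^ (α - 1) * Real.Gamma (1 - α) := by
  have h := Real.integral_rpow_mul_exp_neg_mul_Ioi (a := 1 - α) (r := m) (by linarith) hm
  have e1 : (1 - α - 1) = -α := by ring
  rw [e1] at h
  rw [h, one_div, Real.inv_rpow hm.le, ← Real.rpow_neg hm.le]
  congr 2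
  ring

lemma gamma_integrable {α : ℝ} (h1 : α < 1) {m : ℝ} (hm : 0 < m) :
    IntegrableOn (fun s : ℝ => s ^ (-α) * Real.exp (-(m * s))) (Set.Ioi 0) := by
  by_contra hcon
  have h := gamma_integral h1 hm
  rw [integral_undef hcon] at h
  have h2 : 0 < m ^ (α - 1) * Real.Gamma (1 - α) :=
    mul_pos (Real.rpow_pos_of_pos hm _) (Real.Gamma_pos_of_pos (by linarith))
  linarith

/-- The generating function `∑_l e^{-s(M+1-l)} D_l(x)`, up to the sign `-w_{2^N-1}(x)`. -/
noncomputable def gen (N : ℕ) (x : G) (s : ℝ) : ℝ :=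
  -(∏ k ∈ Finset.range N, rademacher k x) *
    ∑ l ∈ Finset.Icc 1 (2 ^ N), Real.exp (-s) ^ (2 ^ N + 1 - l) * ∑ j ∈ Finset.range l, walsh j x

lemma gen_integrable {α : ℝ} (h1 : α < 1) (N : ℕ) (x : G) :
    IntegrableOn (fun s : ℝ => s ^ (-α) * gen N x s) (Set.Ioi 0) := by
  have : (fun s : ℝ => s ^ (-α) * gen N x s) = fun s : ℝ =>
      ∑ l ∈ Finset.Icc 1 (2 ^ N), (s ^ (-α) * Real.exp (-(((2 ^ N + 1 - l : ℕ) : ℝ) * s))) *
        (-(∏ k ∈ Finset.range N, rademacher k x) * ∑ j ∈ Finset.range l, walsh j x) := by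
    ext s
    rw [gen, Finset.mul_sum, Finset.mul_sum]
    apply Finset.sum_congr rfl
    intro l _
    rw [← Real.exp_nat_mul]
    have : ((2 ^ N + 1 - l : ℕ) : ℝ) * -s = -(((2 ^ N + 1 - l : ℕ) : ℝ) * s) := by ring
    rw [this]; ring
  rw [this]
  refine integrable_finsetSum _ fun l hl => ?_
  refine Integrable.mul_const (gamma_integrable h1 ?_) _
  rw [Finset.mem_Icc] at hl
  have : 1 ≤ 2 ^ N + 1 - l := by omega
  exact_mod_cast this

lemma kernelSum_eq {α : ℝ} (h1 : α < 1) (N : ℕ) (x : G) :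
    ∫ s in Set.Ioi (0 : ℝ), s ^ (-α) * gen N x s =
      Real.Gamma (1 - α) * (-(∏ k ∈ Finset.range N, rademacher k x) * kernelSum α N x) := by
  have : (fun s : ℝ => s ^ (-α) * gen N x s) = fun s : ℝ =>
      ∑ l ∈ Finset.Icc 1 (2 ^ N), (s ^ (-α) * Real.exp (-(((2 ^ N + 1 - l : ℕ) : ℝ) * s))) *
        (-(∏ k ∈ Finset.range N, rademacher k x) * ∑ j ∈ Finset.range l, walsh j x) := by
    ext s
    rw [gen, Finset.mul_sum, Finset.mul_sum]
    apply Finset.sum_congr rfl
    intro l _
    rw [← Real.exp_nat_mul]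
    have : ((2 ^ N + 1 - l : ℕ) : ℝ) * -s = -(((2 ^ N + 1 - l : ℕ) : ℝ) * s) := by ring
    rw [this]; ring
  have hpos : ∀ l ∈ Finset.Icc 1 (2 ^ N), 0 < ((2 ^ N + 1 - l : ℕ) : ℝ) := by
    intro l hl
    rw [Finset.mem_Icc] at hl
    have : 1 ≤ 2 ^ N + 1 - l := by omega
    exact_mod_cast this
  rw [this, integral_finsetSum _ fun l hl => (gamma_integrable h1 (hpos l hl)).mul_const _]
  rw [kernelSum, Finset.mul_sum, Finset.mul_sum]
  apply Finset.sum_congr rfl
  intro l hl
  rw [integral_mul_const, gamma_integral h1 (hpos l hl)]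
  ring

lemma gen_eq {N : ℕ} {x : G} (hD : ∑ i ∈ Finset.range (2 ^ N), walsh i x = 0) {s : ℝ}
    (hs : 0 < s) : gen N x s = Real.exp (-s) ^ 2 / (1 - Real.exp (-s)) *
      ∏ k ∈ Finset.range N, (1 + rademacher k x * Real.exp (-s) ^ (2 ^ k)) := by
  have h := gen_identity (Real.exp (-s)) N x hD
  have h2 : 0 < 1 - Real.exp (-s) := by
    have : Real.exp (-s) < 1 := Real.exp_lt_one_iff.2 (by linarith)
    linarith
  rw [div_mul_eq_mul_div, eq_div_iff h2.ne', ← h, gen]
  ring

lemma factor_nonneg (k m : ℕ) (x : G) {z : ℝ} (hz0 : 0 ≤ z) (hz1 : z ≤ 1) :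
    0 ≤ 1 + rademacher k x * z ^ m := by
  have h1 : 0 ≤ z ^ m := pow_nonneg hz0 m
  have h2 : z ^ m ≤ 1 := pow_le_one₀ hz0 hz1
  rcases rademacher_cases k x with h | h <;> rw [h] <;> linarith

lemma gen_nonneg {N : ℕ} {x : G} (hD : ∑ i ∈ Finset.range (2 ^ N), walsh i x = 0) {s : ℝ}
    (hs : 0 < s) : 0 ≤ gen N x s := by
  rw [gen_eq hD hs]
  have h3 : Real.exp (-s) ≤ 1 := Real.exp_le_one_iff.2 (by linarith)
  refine mul_nonneg (div_nonneg (by positivity) (by linarith)) ?_
  exact Finset.prod_nonneg fun k _ => factor_nonneg _ _ _ (Real.exp_pos _).le h3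

/-- Elementary product bound. -/
lemma one_sub_sum_le (f : ℕ → ℝ) (h0 : ∀ j, 0 ≤ f j) (h1 : ∀ j, f j ≤ 1) (m : ℕ) :
    1 - ∑ j ∈ Finset.range m, f j ≤ ∏ j ∈ Finset.range m, (1 - f j) := by
  induction m with
  | zero => simp
  | succ m ih =>
    rw [Finset.sum_range_succ, Finset.prod_range_succ]
    have hp : ∏ j ∈ Finset.range m, (1 - f j) ≤ 1 :=
      Finset.prod_le_one (fun j _ => by linarith [h1 j]) (fun j _ => by linarith [h0 j])
    nlinarith [h0 m, h1 m]

lemma tail_prod (m : ℕ) (f : ℕ → ℝ) (h0 : ∀ j, 0 ≤ f j)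
    (h : ∀ j, f j ≤ (1 / 4 : ℝ) ^ (j + 1)) :
    2 / 3 ≤ ∏ j ∈ Finset.range m, (1 - f j) := by
  have h1 : ∀ j, f j ≤ 1 := fun j => (h j).trans (pow_le_one₀ (by norm_num) (by norm_num))
  refine le_trans ?_ (one_sub_sum_le f h0 h1 m)
  have h2 : ∑ j ∈ Finset.range m, f j ≤ ∑ j ∈ Finset.range m, (1 / 4 : ℝ) ^ (j + 1) :=
    Finset.sum_le_sum fun j _ => h j
  have h3 : ∑ j ∈ Finset.range m, (1 / 4 : ℝ) ^ (j + 1) = (1 / 3) * (1 - (1 / 4) ^ m) := by
    clear h2
    induction m with
    | zero => simp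
    | succ m ih => rw [Finset.sum_range_succ, ih]; ring
  have h4 : (0 : ℝ) ≤ (1 / 4) ^ m := by positivity
  linarith

lemma prod_one_add_pow (z : ℝ) (u : ℕ) :
    (1 - z) * ∏ k ∈ Finset.range u, (1 + z ^ (2 ^ k)) = 1 - z ^ (2 ^ u) := by
  induction u with
  | zero => simp
  | succ u ih =>
    rw [Finset.prod_range_succ, ← mul_assoc, ih, pow_succ 2 u, pow_mul]
    ring

/-- The point of `G` with digits `1` exactly at positions `u` and `u + 1`. -/
def pt (u : ℕ) : G := fun k => if k = u ∨ k = u + 1 then 1 else 0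

lemma exp_pow_le {s : ℝ} {u : ℕ} (hs1 : (1 / 2 : ℝ) ^ (u + 1) ≤ s) (i : ℕ) :
    Real.exp (-s) ^ (2 ^ (u + i)) ≤ Real.exp (-(2 ^ i / 2)) := by
  rw [← Real.exp_nat_mul]
  apply Real.exp_le_exp.2
  push_cast
  have h1 : (2 : ℝ) ^ (u + i) * (1 / 2) ^ (u + 1) ≤ 2 ^ (u + i) * s :=
    mul_le_mul_of_nonneg_left hs1 (by positivity)
  have h2 : (2 : ℝ) ^ (u + i) * (1 / 2) ^ (u + 1) = 2 ^ i / 2 := by
    rw [pow_add, pow_succ, one_div, inv_pow]
    field_simp
  linarith

lemma gen_lower {u m : ℕ} {x : G} (hx : x ∈ dyadicInterval (u + 2) (pt u)) {s : ℝ}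
    (hs1 : (1 / 2 : ℝ) ^ (u + 1) ≤ s) (hs2 : s ≤ (1 / 2 : ℝ) ^ u) :
    Real.exp (-2) * (1 - Real.exp (-(1 / 2))) ^ 2 * (1 - Real.exp (-1)) * (2 / 3) *
      (1 / s ^ 2) ≤ gen (u + 2 + m) x s := by
  have hs : 0 < s := lt_of_lt_of_le (by positivity) hs1
  have hxu : x u = 1 := by
    have := hx u (by omega)
    simpa [pt] using this
  have hxu1 : x (u + 1) = 1 := by
    have := hx (u + 1) (by omega)
    simpa [pt] using this
  have hxk : ∀ k < u, x k = 0 := by
    intro k hk
    have := hx k (by omega)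
    rw [this]
    simp only [pt]
    rw [if_neg (by omega)]
  have hD : ∑ i ∈ Finset.range (2 ^ (u + 2 + m)), walsh i x = 0 := by
    rw [walsh_sum_one]
    apply Finset.prod_eq_zero (i := u) (Finset.mem_range.2 (by omega))
    rw [rademacher_one hxu]; norm_num
  rw [gen_eq hD hs]
  set z := Real.exp (-s) with hz
  have hz0 : 0 < z := Real.exp_pos _
  have hz1 : z < 1 := Real.exp_lt_one_iff.2 (by linarith)
  have hz2 : 1 - z ≤ s := by
    have := Real.add_one_le_exp (-s)
    linarith
  have hzz : 0 < 1 - z := by linarith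
  -- split the product
  rw [Finset.prod_range_add, Finset.prod_range_succ, Finset.prod_range_succ]
  have e1 : ∏ k ∈ Finset.range u, (1 + rademacher k x * z ^ (2 ^ k)) =
      ∏ k ∈ Finset.range u, (1 + z ^ (2 ^ k)) := by
    apply Finset.prod_congr rfl
    intro k hk
    rw [rademacher_zero (hxk k (Finset.mem_range.1 hk)), one_mul]
  have e2 : ∏ k ∈ Finset.range u, (1 + z ^ (2 ^ k)) = (1 - z ^ (2 ^ u)) / (1 - z) := by
    rw [eq_div_iff hzz.ne', mul_comm, prod_one_add_pow]
  have e3 : rademacher u x = -1 := rademacher_one hxu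
  have e4 : rademacher (u + 1) x = -1 := rademacher_one hxu1
  have b1 : z ^ (2 ^ u) ≤ Real.exp (-(1 / 2)) := by
    have := exp_pow_le hs1 0
    simpa using this
  have b2 : z ^ (2 ^ (u + 1)) ≤ Real.exp (-1) := by
    have := exp_pow_le hs1 1
    simpa using this
  have b3 : 2 / 3 ≤ ∏ j ∈ Finset.range m, (1 - z ^ (2 ^ (u + 2 + j))) := by
    apply tail_prod m (fun j => z ^ (2 ^ (u + 2 + j)))
    · intro j; positivity
    · intro j
      have h := exp_pow_le hs1 (2 + j)
      rw [← add_assoc] at h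
      refine h.trans ?_
      have h5 : (1 / 4 : ℝ) = Real.exp (-(2 * Real.log 2)) := by
        rw [Real.exp_neg, two_mul, Real.exp_add, Real.exp_log (by norm_num)]; norm_num
      rw [h5, ← Real.exp_nat_mul]
      apply Real.exp_le_exp.2
      push_cast
      have h6 : (j : ℝ) + 1 ≤ 2 ^ j := by
        exact_mod_cast Nat.lt_two_pow_self
      have h7 : Real.log 2 ≤ 1 := by
        have := Real.log_two_lt_d9; linarith
      have h8 : (2 : ℝ) ^ (2 + j) / 2 = 2 * 2 ^ j := by rw [pow_add]; ring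
      rw [h8]
      nlinarith [Real.log_pos (show (1 : ℝ) < 2 by norm_num)]
  have b4 : ∏ j ∈ Finset.range m, (1 - z ^ (2 ^ (u + 2 + j))) ≤
      ∏ j ∈ Finset.range m, (1 + rademacher (u + 2 + j) x * z ^ (2 ^ (u + 2 + j))) := by
    apply Finset.prod_le_prod
    · intro j _
      have : z ^ (2 ^ (u + 2 + j)) ≤ 1 := pow_le_one₀ hz0.le hz1.le
      linarith
    · intro j _
      have : 0 ≤ z ^ (2 ^ (u + 2 + j)) := by positivity
      rcases rademacher_cases (u + 2 + j) x with h | h <;> rw [h] <;> linarith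
  have b5 : Real.exp (-2) ≤ z ^ 2 := by
    rw [hz, ← Real.exp_nat_mul]
    apply Real.exp_le_exp.2
    have : (1 / 2 : ℝ) ^ u ≤ 1 := pow_le_one₀ (by norm_num) (by norm_num)
    push_cast
    nlinarith
  have c1 : 0 < 1 - Real.exp (-(1 / 2)) := by
    have : Real.exp (-(1 / 2)) < 1 := Real.exp_lt_one_iff.2 (by norm_num)
    linarith
  have c2 : 0 < 1 - Real.exp (-1) := by
    have : Real.exp (-1) < 1 := Real.exp_lt_one_iff.2 (by norm_num)
    linarith
  have b6 : 1 - Real.exp (-(1 / 2)) ≤ 1 - z ^ (2 ^ u) := by linarith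
  have b7 : 1 - Real.exp (-1) ≤ 1 - z ^ (2 ^ (u + 1)) := by linarith
  rw [e1, e2, e3, e4]
  have b8 : (1 - Real.exp (-(1 / 2))) / s ≤ (1 - z ^ (2 ^ u)) / (1 - z) :=
    div_le_div₀ (by linarith) b6 hzz hz2
  have b9 : Real.exp (-2) / s ≤ z ^ 2 / (1 - z) :=
    div_le_div₀ (by positivity) b5 hzz hz2
  calc Real.exp (-2) * (1 - Real.exp (-(1 / 2))) ^ 2 * (1 - Real.exp (-1)) * (2 / 3) *
      (1 / s ^ 2)
      = (Real.exp (-2) / s) * (((1 - Real.exp (-(1 / 2))) / s) * (1 - Real.exp (-(1 / 2))) *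
          (1 - Real.exp (-1)) * (2 / 3)) := by
        field_simp
    _ ≤ (z ^ 2 / (1 - z)) * (((1 - z ^ (2 ^ u)) / (1 - z)) * (1 + -1 * z ^ (2 ^ u)) *
          (1 + -1 * z ^ (2 ^ (u + 1))) *
          ∏ j ∈ Finset.range m, (1 + rademacher (u + 2 + j) x * z ^ (2 ^ (u + 2 + j)))) := by
        have p1 : 0 ≤ (1 - Real.exp (-(1 / 2))) / s := by positivity
        have p2 : 0 ≤ (1 - z ^ (2 ^ u)) / (1 - z) := p1.trans b8
        apply mul_le_mul b9 _ (by positivity) (by positivity)
        apply mul_le_mul _ (b3.trans b4) (by norm_num)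
        · apply mul_nonneg (mul_nonneg p2 (by linarith)) (by linarith)
        apply mul_le_mul _ (by linarith) c2.le (mul_nonneg p2 (by linarith))
        apply mul_le_mul b8 (by linarith) c1.le p2

/-- The constant in the kernel lower bound. -/
noncomputable def kc (α : ℝ) : ℝ :=
  Real.exp (-2) * (1 - Real.exp (-(1 / 2))) ^ 2 * (1 - Real.exp (-1)) * (2 / 3) /
    (2 * Real.Gamma (1 - α))

lemma kc_pos {α : ℝ} (h1 : α < 1) : 0 < kc α := by
  have c1 : 0 < 1 - Real.exp (-(1 / 2)) := by
    have : Real.exp (-(1 / 2)) < 1 := Real.exp_lt_one_iff.2 (by norm_num)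
    linarith
  have c2 : 0 < 1 - Real.exp (-1) := by
    have : Real.exp (-1) < 1 := Real.exp_lt_one_iff.2 (by norm_num)
    linarith
  have c3 : 0 < Real.Gamma (1 - α) := Real.Gamma_pos_of_pos (by linarith)
  unfold kc
  positivity

lemma kernel_lower {α : ℝ} (h0 : 0 < α) (h1 : α < 1) {u m : ℕ} {x : G}
    (hx : x ∈ dyadicInterval (u + 2) (pt u)) :
    kc α * ((2 : ℝ) ^ u) ^ (1 + α) ≤ |kernelSum α (u + 2 + m) x| := by
  have hxu : x u = 1 := by
    have := hx u (by omega)
    simpa [pt] using this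
  have hD : ∑ i ∈ Finset.range (2 ^ (u + 2 + m)), walsh i x = 0 := by
    rw [walsh_sum_one]
    apply Finset.prod_eq_zero (i := u) (Finset.mem_range.2 (by omega))
    rw [rademacher_one hxu]; norm_num
  set K := Real.exp (-2) * (1 - Real.exp (-(1 / 2))) ^ 2 * (1 - Real.exp (-1)) * (2 / 3) with hK
  have c1 : 0 < 1 - Real.exp (-(1 / 2)) := by
    have : Real.exp (-(1 / 2)) < 1 := Real.exp_lt_one_iff.2 (by norm_num)
    linarith
  have c2 : 0 < 1 - Real.exp (-1) := by
    have : Real.exp (-1) < 1 := Real.exp_lt_one_iff.2 (by norm_num)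
    linarith
  have hKpos : 0 < K := by rw [hK]; positivity
  have hG : 0 < Real.Gamma (1 - α) := Real.Gamma_pos_of_pos (by linarith)
  set δ : ℝ := (1 / 2) ^ u with hδ
  have hδpos : 0 < δ := by rw [hδ]; positivity
  have hint := gen_integrable h1 (u + 2 + m) x
  have hmono : ∫ s in Set.Ioc (δ / 2) δ, s ^ (-α) * gen (u + 2 + m) x s ≤
      ∫ s in Set.Ioi (0 : ℝ), s ^ (-α) * gen (u + 2 + m) x s := by
    apply setIntegral_mono_set hint
    · refine (ae_restrict_iff' measurableSet_Ioi).2 (Eventually.of_forall fun s hs => ?_)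
      exact mul_nonneg (Real.rpow_nonneg (le_of_lt hs) _) (gen_nonneg hD hs)
    · apply Eventually.of_forall
      intro s hs
      exact lt_trans (by positivity) hs.1
  have hlow : ∫ s in Set.Ioc (δ / 2) δ, (δ ^ (-α) * (K * (1 / δ ^ 2))) ≤
      ∫ s in Set.Ioc (δ / 2) δ, s ^ (-α) * gen (u + 2 + m) x s := by
    apply setIntegral_mono_on
    · exact integrableOn_const (by simp)
    · exact hint.mono_set (fun s hs => lt_trans (by positivity) hs.1)
    · exact measurableSet_Ioc
    · intro s hs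
      have hs0 : 0 < s := lt_trans (by positivity) hs.1
      have e1 : (1 / 2 : ℝ) ^ (u + 1) = δ / 2 := by rw [pow_succ, hδ]; ring
      have h2 := gen_lower (m := m) hx (s := s) (by rw [e1]; exact hs.1.le) hs.2
      apply mul_le_mul _ _ (by positivity) (Real.rpow_nonneg hs0.le _)
      · exact Real.rpow_le_rpow_of_nonpos hs0 hs.2 (by linarith)
      · refine le_trans ?_ h2
        apply mul_le_mul_of_nonneg_left _ hKpos.le
        apply one_div_le_one_div_of_le (by positivity)
        exact pow_le_pow_left₀ hs0.le hs.2 2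
  have hconst : ∫ s in Set.Ioc (δ / 2) δ, (δ ^ (-α) * (K * (1 / δ ^ 2))) =
      (δ / 2) * (δ ^ (-α) * (K * (1 / δ ^ 2))) := by
    rw [setIntegral_const, Real.volume_real_Ioc_of_le (by linarith), smul_eq_mul]
    ring
  rw [kernelSum_eq h1] at hmono
  rw [hconst] at hlow
  have hprod : |(∏ k ∈ Finset.range (u + 2 + m), rademacher k x)| = 1 := by
    rw [Finset.abs_prod]
    apply Finset.prod_eq_one
    intro k _
    rcases rademacher_cases k x with h | h <;> rw [h] <;> simp
  have habs : -(∏ k ∈ Finset.range (u + 2 + m), rademacher k x) * kernelSum α (u + 2 + m) x ≤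
      |kernelSum α (u + 2 + m) x| := by
    refine (le_abs_self _).trans ?_
    rw [abs_mul, abs_neg, hprod, one_mul]
  have hfinal : (δ / 2) * (δ ^ (-α) * (K * (1 / δ ^ 2))) =
      Real.Gamma (1 - α) * (kc α * ((2 : ℝ) ^ u) ^ (1 + α)) := by
    have e2 : ((2 : ℝ) ^ u) ^ (1 + α) = δ ^ (-α) * (1 / δ) := by
      have : (2 : ℝ) ^ u = δ⁻¹ := by rw [hδ, one_div, inv_pow, inv_inv]
      rw [this, Real.rpow_add (by positivity), Real.rpow_one, Real.inv_rpow hδpos.le,
        ← Real.rpow_neg hδpos.le]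
      ring
    rw [e2, kc, ← hK]
    field_simp
  have h5 : Real.Gamma (1 - α) * (kc α * ((2 : ℝ) ^ u) ^ (1 + α)) ≤
      Real.Gamma (1 - α) * |kernelSum α (u + 2 + m) x| := by
    rw [← hfinal]
    refine hlow.trans (hmono.trans ?_)
    exact mul_le_mul_of_nonneg_left habs hG.le
  exact le_of_mul_le_mul_left h5 hG

/-! ### The test martingale -/

/-- The test martingale: `f^{(n)} = 0` for `n ≤ N` and `f^{(n)} = B r_N 1_{I_N(0)}` for `n > N`. -/
noncomputable def testFun (B : ℝ) (N : ℕ) (x : G) : ℝ :=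
  (dyadicInterval N 0).indicator (fun y => B * rademacher N y) x

noncomputable def test (B : ℝ) (N n : ℕ) (x : G) : ℝ := if N < n then testFun B N x else 0

lemma measurable_rademacher (k : ℕ) : Measurable (rademacher k) := by
  unfold rademacher
  exact (measurable_of_finite (fun a : ZMod 2 => (-1 : ℝ) ^ a.val)).comp (measurable_pi_apply k)

lemma measurable_filtration_eval {n k : ℕ} (hk : k < n) :
    Measurable[ℱ n] (fun x : G => x k) := by
  refine @measurable_to_countable' (ZMod 2) G _ _ (ℱ n) _ (fun a => ?_)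
  have : (fun x : G => x k) ⁻¹' {a} = ⋃₀ {s | (∃ y : Fin n → ZMod 2,
      dyadicInterval n (fun j => if h : j < n then y ⟨j, h⟩ else 0) = s) ∧
        s ⊆ (fun x : G => x k) ⁻¹' {a}} := by
    ext z
    constructor
    · intro hz
      refine ⟨dyadicInterval n z, ⟨⟨fun i => z i, ?_⟩, ?_⟩, ?_⟩
      · ext w
        simp only [dyadicInterval, Set.mem_ofPred_eq]
        constructor
        · intro h j hj
          have := h j hj
          simpa [hj] using this
        · intro h j hj
          simp [hj, h j hj]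
      · intro w hw
        have : w k = z k := hw k hk
        simp only [Set.mem_preimage, Set.mem_singleton_iff] at hz ⊢
        rw [this, hz]
      · intro j _
        rfl
    · rintro ⟨s, ⟨_, hs⟩, hz⟩
      exact hs hz
  rw [this]
  have hfin : (Set.range fun y : Fin n → ZMod 2 =>
      dyadicInterval n (fun j => if h : j < n then y ⟨j, h⟩ else 0)).Finite :=
    Set.finite_range _
  refine @MeasurableSet.sUnion G (ℱ n) _ ?_ ?_
  · exact (hfin.subset (by rintro s ⟨⟨y, hy⟩, _⟩; exact ⟨y, hy⟩)).countable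
  · rintro s ⟨⟨y, rfl⟩, _⟩
    exact MeasurableSpace.measurableSet_generateFrom ⟨_, rfl⟩

lemma measurable_testFun (B : ℝ) {N n : ℕ} (h : N < n) : Measurable[ℱ n] (testFun B N) := by
  have hs : MeasurableSet[ℱ n] (dyadicInterval N 0) :=
    ℱ.mono h.le _ (MeasurableSpace.measurableSet_generateFrom ⟨_, rfl⟩)
  have hr : Measurable[ℱ n] (fun x : G => B * rademacher N x) := by
    unfold rademacher
    exact (measurable_of_finite (fun a : ZMod 2 => B * (-1 : ℝ) ^ a.val)).comp
      (measurable_filtration_eval h)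
  exact @Measurable.indicator G ℝ _ _ (ℱ n) _ _ hr hs

lemma flip_mem_iff {N n : ℕ} (h : n ≤ N) (x y : G) :
    flip N x ∈ dyadicInterval n y ↔ x ∈ dyadicInterval n y := by
  constructor <;> intro hx j hj
  · have := hx j hj
    rw [flip, if_neg (by omega)] at this
    exact this
  · rw [flip, if_neg (by omega)]
    exact hx j hj

lemma flip_preimage {N : ℕ} {s : Set G} (hs : MeasurableSet[ℱ N] s) : flip N ⁻¹' s = s := by
  induction s, hs using MeasurableSpace.generateFrom_induction with
  | hC t ht _ =>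
    obtain ⟨y, rfl⟩ := ht
    ext x
    exact flip_mem_iff le_rfl x y
  | empty => rfl
  | compl t _ ih => rw [Set.preimage_compl, ih]
  | iUnion f _ ih => rw [Set.preimage_iUnion]; simp_rw [ih]

lemma rademacher_flip (N : ℕ) (x : G) : rademacher N (flip N x) = -rademacher N x := by
  have h : ∀ a : ZMod 2, a = 0 ∨ a = 1 := by decide
  have e : (1 : ZMod 2) + 1 = 0 := rfl
  rcases h (x N) with h | h
  · rw [rademacher_zero h, rademacher_one (by simp [flip, h])]
  · rw [rademacher_one h, rademacher_zero (by simp [flip, h, e])]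
    norm_num

lemma rademacher_flip_of_ne {N k : ℕ} (h : k ≠ N) (x : G) :
    rademacher k (flip N x) = rademacher k x := by
  unfold rademacher flip
  rw [if_neg h]

lemma walsh_flip {N j : ℕ} (h : j < 2 ^ N) (x : G) : walsh j (flip N x) = walsh j x := by
  rw [walsh_eq_prod h, walsh_eq_prod h]
  apply Finset.prod_congr rfl
  intro k hk
  rw [Finset.mem_range] at hk
  rw [rademacher_flip_of_ne (by omega)]

lemma testFun_flip (B : ℝ) (N : ℕ) (x : G) : testFun B N (flip N x) = -testFun B N x := by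
  unfold testFun
  by_cases h : x ∈ dyadicInterval N 0
  · rw [Set.indicator_of_mem h, Set.indicator_of_mem ((flip_mem_iff le_rfl x 0).2 h),
      rademacher_flip]
    ring
  · rw [Set.indicator_of_notMem h,
      Set.indicator_of_notMem (fun h' => h ((flip_mem_iff le_rfl x 0).1 h'))]
    simp

lemma integral_flip_odd {N : ℕ} {g : G → ℝ} (hg : ∀ x, g (flip N x) = -g x) :
    ∫ x, g x ∂μ = 0 := by
  have hm := measurePreserving_flip N
  have hinv : Function.Involutive (flip N) := by
    intro x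
    ext i
    unfold flip
    by_cases h : i = N
    · have : ∀ a : ZMod 2, a + 1 + 1 = a := by decide
      simp [h, this]
    · simp [h]
  have hemb : MeasurableEmbedding (flip N) :=
    (MeasurableEquiv.mk hinv.toPerm hm.measurable hm.measurable).measurableEmbedding
  have h1 : ∫ x, g (flip N x) ∂μ = ∫ x, g x ∂μ := hm.integral_comp hemb g
  simp_rw [hg] at h1
  rw [integral_neg] at h1
  linarith

lemma testFun_bound (B : ℝ) (N : ℕ) (x : G) : ‖testFun B N x‖ ≤ ‖B‖ := by
  unfold testFun
  by_cases h : x ∈ dyadicInterval N 0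
  · rw [Set.indicator_of_mem h, norm_mul]
    rcases rademacher_cases N x with h | h <;> rw [h] <;> simp
  · rw [Set.indicator_of_notMem h]
    simp

lemma integrable_testFun (B : ℝ) (N : ℕ) : Integrable (testFun B N) μ := by
  refine Integrable.of_bound (C := ‖B‖) ?_ (Eventually.of_forall (testFun_bound B N))
  exact ((measurable_testFun B (Nat.lt_succ_self N)).mono (ℱ.le _) le_rfl).aestronglyMeasurable

lemma martingale_test (B : ℝ) (N : ℕ) : Martingale (test B N) ℱ μ := by
  have hadapt : StronglyAdapted ℱ (test B N) := by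
    intro n
    by_cases h : N < n
    · have : test B N n = testFun B N := by ext x; simp [test, h]
      rw [this]
      exact (measurable_testFun B h).stronglyMeasurable
    · have : test B N n = fun _ => 0 := by ext x; simp [test, h]
      rw [this]
      exact stronglyMeasurable_const
  have hint : ∀ n, Integrable (test B N n) μ := by
    intro n
    by_cases h : N < n
    · have : test B N n = testFun B N := by ext x; simp [test, h]
      rw [this]
      exact integrable_testFun B N
    · have : test B N n = fun _ => 0 := by ext x; simp [test, h]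
      rw [this]
      exact integrable_const 0
  refine martingale_nat hadapt hint fun n => ?_
  by_cases h : N < n
  · have e : test B N (n + 1) = test B N n := by
      ext x; simp [test, h, Nat.lt_succ_of_lt h]
    rw [e, condExp_of_stronglyMeasurable (ℱ.le n) (hadapt n) (hint n)]
  · by_cases h2 : n = N
    · subst h2
      have e1 : test B n n = fun _ => 0 := by ext x; simp [test]
      have e2 : test B n (n + 1) = testFun B n := by ext x; simp [test]
      rw [e1, e2]
      refine ae_eq_condExp_of_forall_setIntegral_eq (ℱ.le n) (integrable_testFun B n)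
        (fun s _ _ => integrableOn_zero) ?_ stronglyMeasurable_const.aestronglyMeasurable
      intro s hs _
      rw [integral_zero, ← integral_indicator (ℱ.le n _ hs)]
      symm
      apply integral_flip_odd (N := n)
      intro x
      have hp := flip_preimage hs
      have hiff : flip n x ∈ s ↔ x ∈ s := by
        rw [← Set.mem_preimage, hp]
      by_cases hxs : x ∈ s
      · rw [Set.indicator_of_mem hxs, Set.indicator_of_mem (hiff.2 hxs), testFun_flip]
      · rw [Set.indicator_of_notMem hxs, Set.indicator_of_notMem (fun h' => hxs (hiff.1 h'))]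
        simp
    · have e1 : test B N n = fun _ => 0 := by ext x; simp [test, h]
      have e2 : test B N (n + 1) = fun _ => 0 := by
        ext x
        have : ¬ N < n + 1 := by omega
        simp [test, this]
      rw [e1, e2]
      have := condExp_const (μ := μ) (ℱ.le n) (0 : ℝ)
      rw [this]

lemma enorm_testFun {B : ℝ} (N : ℕ) (x : G) :
    ‖testFun B N x‖ₑ = (dyadicInterval N 0).indicator (fun _ => ‖B‖ₑ) x := by
  unfold testFun
  by_cases h : x ∈ dyadicInterval N 0
  · rw [Set.indicator_of_mem h, Set.indicator_of_mem h, enorm_mul]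
    rcases rademacher_cases N x with h | h <;> rw [h] <;> simp
  · rw [Set.indicator_of_notMem h, Set.indicator_of_notMem h]
    simp

lemma hardyNorm_test {B p : ℝ} (hB : 0 < B) (hp : 0 < p) (N : ℕ) :
    hardyNorm p (test B N) = (ENNReal.ofReal B ^ p * (1 / 2) ^ N) ^ (1 / p) := by
  unfold hardyNorm
  congr 1
  have : ∀ x, (⨆ n, ‖test B N n x‖ₑ) = ‖testFun B N x‖ₑ := by
    intro x
    apply le_antisymm
    · refine iSup_le fun n => ?_
      by_cases h : N < n
      · simp [test, h]
      · simp [test, h]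
    · have : ‖testFun B N x‖ₑ = ‖test B N (N + 1) x‖ₑ := by simp [test]
      rw [this]
      exact le_iSup (fun n => ‖test B N n x‖ₑ) (N + 1)
  simp_rw [this, enorm_testFun]
  have h2 : ∀ x, (dyadicInterval N 0).indicator (fun _ => ‖B‖ₑ) x ^ p =
      (dyadicInterval N 0).indicator (fun _ => ‖B‖ₑ ^ p) x := by
    intro x
    by_cases h : x ∈ dyadicInterval N 0
    · rw [Set.indicator_of_mem h, Set.indicator_of_mem h]
    · rw [Set.indicator_of_notMem h, Set.indicator_of_notMem h, ENNReal.zero_rpow_of_pos hp]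
  simp_rw [h2]
  rw [lintegral_indicator_const (measurableSet_dyadic N 0), measure_cyl,
    Real.enorm_of_nonneg hB.le]

lemma fourier_test (B : ℝ) {N i : ℕ} (hi : i < 2 ^ (N + 1)) :
    fourier (test B N) i = if i < 2 ^ N then 0 else B * (1 / 2) ^ N := by
  have hval : ∀ k, N < k → ∫ x, test B N k x * walsh i x ∂μ =
      if i < 2 ^ N then 0 else B * (1 / 2) ^ N := by
    intro k hk
    have e : ∀ x, test B N k x = testFun B N x := by intro x; simp [test, hk]
    simp_rw [e]
    by_cases h : i < 2 ^ N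
    · rw [if_pos h]
      apply integral_flip_odd (N := N)
      intro x
      rw [testFun_flip, walsh_flip h]; ring
    · rw [if_neg h]
      obtain ⟨j, rfl⟩ := Nat.exists_eq_add_of_le (not_lt.1 h)
      have hj : j < 2 ^ N := by rw [pow_succ] at hi; omega
      have e2 : ∀ x, testFun B N x * walsh (2 ^ N + j) x =
          (dyadicInterval N 0).indicator (fun _ => B) x := by
        intro x
        unfold testFun
        by_cases hx : x ∈ dyadicInterval N 0
        · rw [Set.indicator_of_mem hx, Set.indicator_of_mem hx, walsh_add hj,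
            walsh_eq_one_of_mem hj hx]
          linear_combination B * rademacher_sq N x
        · rw [Set.indicator_of_notMem hx, Set.indicator_of_notMem hx, zero_mul]
      simp_rw [e2]
      rw [integral_indicator_const _ (measurableSet_dyadic N 0), Measure.real, measure_cyl,
        smul_eq_mul, ENNReal.toReal_pow]
      simp
      ring
  have htend : Tendsto (fun k : ℕ => ∫ x, test B N k x * walsh i x ∂μ) atTop
      (nhds (if i < 2 ^ N then 0 else B * (1 / 2) ^ N)) := by
    apply tendsto_const_nhds.congr'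
    filter_upwards [eventually_gt_atTop N] with k hk
    exact (hval k hk).symm
  exact htend.limUnder_eq

lemma partialSum_test_low (B : ℝ) {N k : ℕ} (hk : k ≤ 2 ^ N) (x : G) :
    partialSum k (test B N) x = 0 := by
  unfold partialSum
  apply Finset.sum_eq_zero
  intro j hj
  rw [Finset.mem_range] at hj
  rw [fourier_test B (by rw [pow_succ]; omega), if_pos (by omega), zero_mul]

lemma partialSum_test_high (B : ℝ) {N l : ℕ} (hl : l ≤ 2 ^ N) (x : G) :
    partialSum (2 ^ N + l) (test B N) x =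
      (B * (1 / 2) ^ N) * (rademacher N x * ∑ j ∈ Finset.range l, walsh j x) := by
  unfold partialSum
  rw [Finset.sum_range_add]
  have h1 := partialSum_test_low B (le_refl (2 ^ N)) x
  unfold partialSum at h1
  rw [h1, zero_add, Finset.mul_sum, Finset.mul_sum]
  apply Finset.sum_congr rfl
  intro j hj
  rw [Finset.mem_range] at hj
  rw [fourier_test B (by rw [pow_succ]; omega), if_neg (by omega), walsh_add (by omega)]

lemma sum_Icc_add (f : ℕ → ℝ) (a b : ℕ) :
    ∑ k ∈ Finset.Icc 1 (a + b), f k =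
      ∑ k ∈ Finset.Icc 1 a, f k + ∑ l ∈ Finset.Icc 1 b, f (a + l) := by
  induction b with
  | zero => simp
  | succ b ih =>
    rw [← add_assoc, Finset.sum_Icc_succ_top (by omega), ih,
      Finset.sum_Icc_succ_top (by omega)]
    rw [add_assoc, add_assoc]

lemma U_test (α B : ℝ) (N : ℕ) (x : G) :
    U α (2 ^ (N + 1)) (test B N) x = (Q α (2 ^ (N + 1)))⁻¹ *
      ((B * (1 / 2) ^ N) * (rademacher N x * kernelSum α N x)) := by
  unfold U
  congr 1
  have h2 : 2 ^ (N + 1) = 2 ^ N + 2 ^ N := by rw [pow_succ]; omega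
  rw [h2, sum_Icc_add]
  have h3 : ∑ k ∈ Finset.Icc 1 (2 ^ N), ((2 ^ N + 2 ^ N + 1 - k : ℕ) : ℝ) ^ (α - 1) *
      partialSum k (test B N) x = 0 := by
    apply Finset.sum_eq_zero
    intro k hk
    rw [Finset.mem_Icc] at hk
    rw [partialSum_test_low B hk.2, mul_zero]
  rw [h3, zero_add, kernelSum, Finset.mul_sum, Finset.mul_sum]
  apply Finset.sum_congr rfl
  intro l hl
  rw [Finset.mem_Icc] at hl
  rw [partialSum_test_high B hl.2]
  have : 2 ^ N + 2 ^ N + 1 - (2 ^ N + l) = 2 ^ N + 1 - l := by omega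
  rw [this]; ring

lemma Q_pos (α : ℝ) {n : ℕ} (hn : 1 ≤ n) : 0 < Q α n := by
  unfold Q
  apply Finset.sum_pos
  · intro k hk
    rw [Finset.mem_Icc] at hk
    have : (0 : ℝ) < k := by exact_mod_cast hk.1
    positivity
  · exact ⟨1, by rw [Finset.mem_Icc]; exact ⟨le_rfl, hn⟩⟩

lemma Q_le {α : ℝ} (h0 : 0 < α) (h1 : α < 1) (n : ℕ) : Q α n ≤ (n : ℝ) ^ α / α := by
  induction n with
  | zero => simp [Q, Real.zero_rpow h0.ne']
  | succ n ih =>
    unfold Q at ih ⊢
    rw [Finset.sum_Icc_succ_top (by omega)]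
    have hk : (0 : ℝ) < ((n + 1 : ℕ) : ℝ) := by positivity
    have hb := rpow_one_add_le_one_add_mul_self (s := -1 / ((n + 1 : ℕ) : ℝ)) (p := α)
      (by
        rw [neg_div, neg_le_neg_iff, div_le_one hk]
        push_cast; linarith [(Nat.cast_nonneg n : (0 : ℝ) ≤ n)]) h0.le h1.le
    have e1 : 1 + -1 / ((n + 1 : ℕ) : ℝ) = (n : ℝ) / ((n + 1 : ℕ) : ℝ) := by
      field_simp; push_cast; ring
    rw [e1, Real.div_rpow (by positivity) hk.le, div_le_iff₀ (by positivity)] at hb
    have e2 : ((n + 1 : ℕ) : ℝ) ^ (α - 1) = ((n + 1 : ℕ) : ℝ) ^ α / ((n + 1 : ℕ) : ℝ) := by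
      rw [Real.rpow_sub hk, Real.rpow_one]
    rw [e2]
    have e3 : (n : ℝ) ^ α / α + ((n + 1 : ℕ) : ℝ) ^ α / ((n + 1 : ℕ) : ℝ) ≤
        ((n + 1 : ℕ) : ℝ) ^ α / α := by
      rw [← sub_nonneg]
      have : ((n + 1 : ℕ) : ℝ) ^ α / α -
          ((n : ℝ) ^ α / α + ((n + 1 : ℕ) : ℝ) ^ α / ((n + 1 : ℕ) : ℝ)) =
          ((1 + α * (-1 / ((n + 1 : ℕ) : ℝ))) * ((n + 1 : ℕ) : ℝ) ^ α - (n : ℝ) ^ α) / α := by
        field_simp
        ring
      rw [this]
      apply div_nonneg (by linarith) h0.le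
    linarith

/-- The main estimate. -/
lemma main_estimate {α : ℝ} (h0 : 0 < α) (h1 : α < 1) (m : ℕ) :
    ENNReal.ofReal (kc α * α / 2 ^ α * ((m : ℝ) / 4) ^ (1 + α)) ≤ dyadicNorm α (m + 2) := by
  set N := m + 1 with hN
  set p : ℝ := 1 / (1 + α) with hp
  have hp0 : 0 < p := by rw [hp]; positivity
  have hpinv : 1 / p = 1 + α := by rw [hp, one_div_one_div]
  set B : ℝ := ((2 : ℝ) ^ N) ^ (1 + α) with hB
  have hBpos : 0 < B := by rw [hB]; positivity
  have hBp : B ^ p = 2 ^ N := by
    rw [hB, ← Real.rpow_mul (by positivity), hp, mul_one_div_cancel (by positivity), Real.rpow_one]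
  have hardy : hardyNorm p (test B N) = 1 := by
    rw [hardyNorm_test hBpos hp0, ENNReal.ofReal_rpow_of_pos hBpos, hBp]
    have : ENNReal.ofReal ((2 : ℝ) ^ N) * (1 / 2) ^ N = 1 := by
      rw [ENNReal.ofReal_pow (by norm_num), ← mul_pow]
      simp [ENNReal.mul_inv_cancel]
    rw [this, ENNReal.one_rpow]
  have hle : lpNorm p (U α (2 ^ (N + 1)) (test B N)) ≤ dyadicNorm α (m + 2) := by
    unfold dyadicNorm
    have : m + 2 = N + 1 := by omega
    rw [this]
    exact le_iSup_of_le (test B N) (le_iSup_of_le (martingale_test B N)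
      (le_iSup_of_le hardy.le le_rfl))
  refine le_trans ?_ hle
  set A : ℝ := B * (1 / 2) ^ N with hA
  have hApos : 0 < A := by rw [hA]; positivity
  have hAeq : A = ((2 : ℝ) ^ N) ^ α := by
    rw [hA, hB, Real.rpow_add (by positivity), Real.rpow_one, one_div, inv_pow]
    field_simp
  set q : ℝ := Q α (2 ^ (N + 1)) with hq
  have hqpos : 0 < q := Q_pos α (Nat.one_le_two_pow)
  have hqle : q ≤ A * 2 ^ α / α := by
    have := Q_le h0 h1 (2 ^ (N + 1))
    refine this.trans (le_of_eq ?_)
    rw [hAeq]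
    push_cast
    rw [pow_succ, Real.mul_rpow (by positivity) (by norm_num)]
  set a : ℝ := q⁻¹ * (A * kc α) with ha
  have hkc := kc_pos h1
  have hapos : 0 < a := by rw [ha]; positivity
  have halow : kc α * α / 2 ^ α ≤ a := by
    rw [ha, inv_mul_eq_div, le_div_iff₀ hqpos]
    calc kc α * α / 2 ^ α * q ≤ kc α * α / 2 ^ α * (A * 2 ^ α / α) :=
          mul_le_mul_of_nonneg_left hqle (by positivity)
      _ = A * kc α := by field_simp
  -- pointwise bound
  have hpt : ∀ u < m, ∀ x ∈ dyadicInterval (u + 2) (pt u),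
      ENNReal.ofReal (a ^ p * 2 ^ u) ≤ ‖U α (2 ^ (N + 1)) (test B N) x‖ₑ ^ p := by
    intro u hu x hx
    have h2 : a * ((2 : ℝ) ^ u) ^ (1 + α) ≤ ‖U α (2 ^ (N + 1)) (test B N) x‖ := by
      rw [U_test, ← hA, ← hq]
      obtain ⟨j, hj⟩ := Nat.exists_eq_add_of_le (show u + 2 ≤ N by omega)
      have h3 := kernel_lower (m := j) h0 h1 hx
      rw [← hj] at h3
      have h4 : ‖rademacher N x‖ = 1 := by
        rcases rademacher_cases N x with h | h <;> rw [h] <;> simp
      rw [norm_mul q⁻¹, norm_mul A, norm_mul (rademacher N x),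
        Real.norm_of_nonneg (inv_nonneg.2 hqpos.le),
        Real.norm_of_nonneg hApos.le, Real.norm_eq_abs (kernelSum α N x), h4, one_mul, ha]
      calc q⁻¹ * (A * kc α) * ((2 : ℝ) ^ u) ^ (1 + α)
          = q⁻¹ * (A * (kc α * ((2 : ℝ) ^ u) ^ (1 + α))) := by ring
        _ ≤ q⁻¹ * (A * |kernelSum α N x|) := by gcongr
    rw [← ofReal_norm, ENNReal.ofReal_rpow_of_nonneg (norm_nonneg _) hp0.le]
    apply ENNReal.ofReal_le_ofReal
    calc a ^ p * 2 ^ u = (a * ((2 : ℝ) ^ u) ^ (1 + α)) ^ p := by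
          rw [Real.mul_rpow hapos.le (by positivity), ← Real.rpow_mul (by positivity), hp,
            mul_one_div_cancel (by positivity), Real.rpow_one]
      _ ≤ _ := Real.rpow_le_rpow (by positivity) h2 hp0.le
  -- the sets are disjoint
  have hdisj : Set.PairwiseDisjoint (↑(Finset.range m) : Set ℕ)
      (fun u => dyadicInterval (u + 2) (pt u)) := by
    have key : ∀ u v : ℕ, u < v → Disjoint (dyadicInterval (u + 2) (pt u))
        (dyadicInterval (v + 2) (pt v)) := by
      intro u v huv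
      rw [Set.disjoint_left]
      intro x hx hy
      have e1 : x u = 1 := by simpa [pt] using hx u (by omega)
      have e2 : x u = 0 := by
        have := hy u (by omega)
        rw [this]
        simp only [pt]
        rw [if_neg (by omega)]
      rw [e1] at e2
      exact one_ne_zero e2
    intro u _ v _ huv
    rcases lt_or_gt_of_ne huv with h | h
    · exact key u v h
    · exact (key v u h).symm
  have hint : (m : ℝ≥0∞) * ENNReal.ofReal (a ^ p / 4) ≤
      ∫⁻ x, ‖U α (2 ^ (N + 1)) (test B N) x‖ₑ ^ p ∂μ := by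
    calc (m : ℝ≥0∞) * ENNReal.ofReal (a ^ p / 4)
        = ∑ u ∈ Finset.range m, ENNReal.ofReal (a ^ p / 4) := by simp
      _ ≤ ∑ u ∈ Finset.range m, ∫⁻ x in dyadicInterval (u + 2) (pt u),
            ‖U α (2 ^ (N + 1)) (test B N) x‖ₑ ^ p ∂μ := by
          apply Finset.sum_le_sum
          intro u hu
          rw [Finset.mem_range] at hu
          have h5 : ∫⁻ x in dyadicInterval (u + 2) (pt u), ENNReal.ofReal (a ^ p * 2 ^ u) ∂μ ≤
              ∫⁻ x in dyadicInterval (u + 2) (pt u),
                ‖U α (2 ^ (N + 1)) (test B N) x‖ₑ ^ p ∂μ :=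
            setLIntegral_mono' (measurableSet_dyadic _ _) (hpt u hu)
          refine le_trans (le_of_eq ?_) h5
          rw [setLIntegral_const, measure_cyl]
          have h6 : ((1 : ℝ≥0∞) / 2) ^ (u + 2) = ENNReal.ofReal ((1 / 2) ^ (u + 2)) := by
            rw [ENNReal.ofReal_pow (by norm_num)]
            congr 1
            rw [ENNReal.ofReal_div_of_pos (by norm_num)]
            simp
          rw [h6, ← ENNReal.ofReal_mul (by positivity)]
          congr 1
          rw [pow_add, one_div, inv_pow]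
          field_simp
          norm_num
      _ = ∫⁻ x in ⋃ u ∈ Finset.range m, dyadicInterval (u + 2) (pt u),
            ‖U α (2 ^ (N + 1)) (test B N) x‖ₑ ^ p ∂μ := by
          rw [lintegral_biUnion_finset hdisj (fun u _ => measurableSet_dyadic _ _)]
      _ ≤ _ := setLIntegral_le_lintegral _ _
  unfold lpNorm
  calc ENNReal.ofReal (kc α * α / 2 ^ α * ((m : ℝ) / 4) ^ (1 + α))
      ≤ ENNReal.ofReal (a * ((m : ℝ) / 4) ^ (1 + α)) := by
        apply ENNReal.ofReal_le_ofReal
        gcongr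
    _ = ((m : ℝ≥0∞) * ENNReal.ofReal (a ^ p / 4)) ^ (1 / p) := by
        have h7 : (m : ℝ≥0∞) = ENNReal.ofReal (m : ℝ) := by simp
        rw [h7, ← ENNReal.ofReal_mul (by positivity), ENNReal.ofReal_rpow_of_nonneg (by positivity)
          (by positivity)]
        congr 1
        have h8 : (m : ℝ) * (a ^ p / 4) = a ^ p * ((m : ℝ) / 4) := by ring
        rw [h8, Real.mul_rpow (by positivity) (by positivity), ← Real.rpow_mul hapos.le,
          mul_one_div_cancel hp0.ne', Real.rpow_one, hpinv]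
    _ ≤ _ := ENNReal.rpow_le_rpow hint (by positivity)

/-- **Negative answer to Q1, for every `α ∈ (0,1)`.** With `p = 1/(1+α)`, the operators
`U^α_{2^n} : H_p → L_p` are not uniformly bounded; quantitatively, their norms are at least
`c_α n^{1+α}` for all `n ≥ 3`. -/
theorem main_result (α : ℝ) (h0 : 0 < α) (h1 : α < 1) :
    ((⨆ n : ℕ, dyadicNorm α n) = ∞) ∧
      ∃ c : ℝ, 0 < c ∧ ∀ n : ℕ, 3 ≤ n →
        ENNReal.ofReal (c * (n : ℝ) ^ (1 + α)) ≤ dyadicNorm α n := by
  have hkc := kc_pos h1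
  have hquant : ∃ c : ℝ, 0 < c ∧ ∀ n : ℕ, 3 ≤ n →
      ENNReal.ofReal (c * (n : ℝ) ^ (1 + α)) ≤ dyadicNorm α n := by
    refine ⟨kc α * α / 2 ^ α * (1 / 12) ^ (1 + α), by positivity, ?_⟩
    intro n hn
    obtain ⟨m, rfl⟩ := Nat.exists_eq_add_of_le' (show 2 ≤ n by omega)
    refine le_trans (ENNReal.ofReal_le_ofReal ?_) (main_estimate h0 h1 m)
    rw [mul_assoc]
    apply mul_le_mul_of_nonneg_left _ (by positivity)
    rw [← Real.mul_rpow (by norm_num) (by positivity)]
    apply Real.rpow_le_rpow (by positivity) _ (by positivity)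
    have hm : (1 : ℝ) ≤ m := by
      have : 1 ≤ m := by omega
      exact_mod_cast this
    push_cast
    linarith
  refine ⟨?_, hquant⟩
  obtain ⟨c, hc, h⟩ := hquant
  rw [eq_top_iff]
  refine le_of_forall_lt fun b hb => ?_
  obtain ⟨r, hr, hbr⟩ : ∃ r : ℝ, 0 ≤ r ∧ b ≤ ENNReal.ofReal r :=
    ⟨b.toReal, ENNReal.toReal_nonneg, (ENNReal.ofReal_toReal hb.ne).ge⟩
  obtain ⟨k, hk⟩ := exists_nat_gt (r / c)
  have hn : 3 ≤ k + 3 := by omega
  refine lt_of_le_of_lt hbr (lt_of_lt_of_le ?_ ((h (k + 3) hn).trans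
    (le_iSup (fun n => dyadicNorm α n) (k + 3))))
  rw [ENNReal.ofReal_lt_ofReal_iff (by positivity)]
  rw [div_lt_iff₀ hc] at hk
  have h2 : (k : ℝ) ≤ ((k + 3 : ℕ) : ℝ) ^ (1 + α) := by
    have h3 : (1 : ℝ) ≤ ((k + 3 : ℕ) : ℝ) := by push_cast; linarith [(Nat.cast_nonneg k : (0 : ℝ) ≤ k)]
    calc (k : ℝ) ≤ ((k + 3 : ℕ) : ℝ) ^ (1 : ℝ) := by
          rw [Real.rpow_one]; push_cast; linarith
      _ ≤ _ := Real.rpow_le_rpow_of_exponent_le h3 (by linarith)
  nlinarith

end Pool.Agent.H56.Dyadic
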